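import Pool.Agent.Helper46.DC.Defs

set_option autoImplicit false

/-! DC-13: the lower bound for connectivity forcing disjoint cycles through specified vertices. -/

namespace Pool.Agent.DC

open Finset

/-- `2k-1` clique vertices joined to everything, the other `m` vertices independent. -/
def lowG (k m : ℕ) : SimpleGraph (Fin (2 * k - 1) ⊕ Fin m) where
  Adj a b := a ≠ b ∧ (a.isLeft = true ∨ b.isLeft = true)
  symm := ⟨by
    intro a b h
    exact ⟨h.1.symm, h.2.symm⟩⟩
  loopless := ⟨by
    intro a h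
    exact h.1 rfl⟩

/-- A cycle uses two distinct clique vertices. -/
theorem lowG_two (k m : ℕ) (x : Fin (2 * k - 1) ⊕ Fin m) (C : (lowG k m).Walk x x)
    (hC : C.IsCycle) :
    ∃ i j : Fin (2 * k - 1), i ≠ j ∧ Sum.inl i ∈ C.support ∧ Sum.inl j ∈ C.support := by
  have h3 := hC.three_le_length
  have inj := hC.getVert_injOn
  have inj' := hC.getVert_injOn'
  have a0 : (lowG k m).Adj (C.getVert 0) (C.getVert 1) := C.adj_getVert_succ (by omega)
  have a1 : (lowG k m).Adj (C.getVert 1) (C.getVert 2) := C.adj_getVert_succ (by omega)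
  have a2 : (lowG k m).Adj (C.getVert 2) (C.getVert 3) := C.adj_getVert_succ (by omega)
  have m0 : C.getVert 0 ∈ C.support := C.getVert_mem_support 0
  have m1 : C.getVert 1 ∈ C.support := C.getVert_mem_support 1
  have m2 : C.getVert 2 ∈ C.support := C.getVert_mem_support 2
  have m3 : C.getVert 3 ∈ C.support := C.getVert_mem_support 3
  have n13 : C.getVert 1 ≠ C.getVert 3 := by
    intro h
    have := inj (show (1 : ℕ) ∈ {i | 1 ≤ i ∧ i ≤ C.length} by simp; omega)
      (show (3 : ℕ) ∈ {i | 1 ≤ i ∧ i ≤ C.length} by simp; omega) h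
    omega
  have n02 : C.getVert 0 ≠ C.getVert 2 := by
    intro h
    have := inj' (show (0 : ℕ) ∈ {i | i ≤ C.length - 1} by simp)
      (show (2 : ℕ) ∈ {i | i ≤ C.length - 1} by simp; omega) h
    omega
  have key : ∀ a b : Fin (2 * k - 1) ⊕ Fin m, a.isLeft = true → b.isLeft = true → a ≠ b →
      a ∈ C.support → b ∈ C.support →
      ∃ i j : Fin (2 * k - 1), i ≠ j ∧ Sum.inl i ∈ C.support ∧ Sum.inl j ∈ C.support := by
    intro a b ha hb hab hma hmb
    obtain ⟨i, rfl⟩ := Sum.isLeft_iff.1 ha
    obtain ⟨j, rfl⟩ := Sum.isLeft_iff.1 hb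
    exact ⟨i, j, fun h => hab (by rw [h]), hma, hmb⟩
  by_cases h2 : (C.getVert 2).isLeft = true
  · by_cases h1 : (C.getVert 1).isLeft = true
    · exact key _ _ h1 h2 a1.1 m1 m2
    · have h0 : (C.getVert 0).isLeft = true := by
        rcases a0.2 with h | h
        · exact h
        · exact absurd h h1
      exact key _ _ h0 h2 n02 m0 m2
  · have h1 : (C.getVert 1).isLeft = true := by
      rcases a1.2 with h | h
      · exact h
      · exact absurd h h2
    have h3' : (C.getVert 3).isLeft = true := by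
      rcases a2.2 with h | h
      · exact absurd h h2
      · exact h
    exact key _ _ h1 h3' n13 m1 m3

/-- `2k-1` clique vertices joined to everything, the other `m` vertices independent:
`(2k-1)`-connected, and no `k` disjoint cycles (so `DisjCycles` fails for every `X`). -/
theorem lower_bound (k m : ℕ) (hk : 1 ≤ k) (hm : 1 ≤ m) :
    ∃ G : SimpleGraph (Fin (2 * k - 1) ⊕ Fin m), KConn G (2 * k - 1) ∧
      (∀ i j : Fin m, ¬ G.Adj (Sum.inr i) (Sum.inr j)) ∧
      ∀ X : Finset (Fin (2 * k - 1) ⊕ Fin m), X.card = k → ¬ DisjCycles G X := by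
  classical
  refine ⟨lowG k m, ⟨?_, ?_⟩, ?_, ?_⟩
  · simp only [Fintype.card_sum, Fintype.card_fin]
    omega
  · intro S hS
    obtain ⟨c, hc⟩ : ∃ c : Fin (2 * k - 1), (Sum.inl c : Fin (2 * k - 1) ⊕ Fin m) ∉ S := by
      by_contra hcon
      push Not at hcon
      have h1 : (Finset.univ.image (Sum.inl : Fin (2 * k - 1) → Fin (2 * k - 1) ⊕ Fin m)) ⊆ S := by
        intro y hy
        obtain ⟨c, -, rfl⟩ := Finset.mem_image.1 hy
        exact hcon c
      have h2 := Finset.card_le_card h1
      rw [Finset.card_image_of_injective _ Sum.inl_injective, Finset.card_univ,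
        Fintype.card_fin] at h2
      omega
    have hreach : ∀ v : {v | v ∉ S}, ((lowG k m).induce {v | v ∉ S}).Reachable
        ⟨Sum.inl c, hc⟩ v := by
      intro v
      by_cases hv : (⟨Sum.inl c, hc⟩ : {v | v ∉ S}) = v
      · rw [hv]
      · apply SimpleGraph.Adj.reachable
        show (lowG k m).Adj (Sum.inl c) v.1
        refine ⟨fun h => hv (Subtype.ext h), Or.inl rfl⟩
    have : Nonempty {v | v ∉ S} := ⟨⟨Sum.inl c, hc⟩⟩
    refine ⟨fun u v => ?_⟩
    exact (hreach u).symm.trans (hreach v)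
  · intro i j h
    rcases h.2 with h | h <;> simp at h
  · rintro X hX ⟨C, hcyc, -, hdis⟩
    let F : Fin (2 * k - 1) ⊕ Fin m → Finset (Fin (2 * k - 1)) := fun x =>
      Finset.univ.filter fun i => Sum.inl i ∈ (C x).support
    have hF2 : ∀ x ∈ X, 2 ≤ (F x).card := by
      intro x hx
      obtain ⟨i, j, hij, hi, hj⟩ := lowG_two k m x (C x) (hcyc x hx)
      exact Finset.one_lt_card.2 ⟨i, by simp [F, hi], j, by simp [F, hj], hij⟩
    have hdisj : ((X : Set (Fin (2 * k - 1) ⊕ Fin m))).PairwiseDisjoint F := by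
      intro x hx y hy hxy
      rw [Function.onFun, Finset.disjoint_left]
      intro i hi hj
      simp only [F, Finset.mem_filter, Finset.mem_univ, true_and] at hi hj
      exact hdis x hx y hy hxy _ hi hj
    have h1 : ∑ x ∈ X, 2 ≤ ∑ x ∈ X, (F x).card := Finset.sum_le_sum hF2
    rw [← Finset.card_biUnion hdisj, Finset.sum_const, hX, smul_eq_mul] at h1
    have h2 : (X.biUnion F).card ≤ 2 * k - 1 := by
      simpa using Finset.card_le_univ (X.biUnion F)
    omega

end Pool.Agent.DC
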